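import Mathlib

/-!
# Lattice points of dilates of a symmetric convex set
-/

set_option autoImplicit false

namespace Pool.Agent.Y806.DF

open Finset
open scoped Pointwise

/-- the real vector of an integer vector -/
def re {r : ℕ} (v : Fin r → ℤ) : Fin r → ℝ := fun i => (v i : ℝ)

theorem re_add {r : ℕ} (v w : Fin r → ℤ) : re (v + w) = re v + re w := by
  funext i; simp [re]

theorem re_sub {r : ℕ} (v w : Fin r → ℤ) : re (v - w) = re v - re w := by
  funext i; simp [re]

theorem re_neg {r : ℕ} (v : Fin r → ℤ) : re (-v) = -re v := by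
  funext i; simp [re]

/-- the integer points of a set -/
def lat {r : ℕ} (B : Set (Fin r → ℝ)) : Set (Fin r → ℤ) := {v | re v ∈ B}

theorem lat_finite {r : ℕ} {B : Set (Fin r → ℝ)} (hB : Bornology.IsBounded B) : (lat B).Finite := by
  obtain ⟨R, hR⟩ := hB.exists_norm_le
  have h1 : lat B ⊆ Set.Icc (fun _ => -⌈R⌉) (fun _ => ⌈R⌉) := by
    intro v hv
    have h2 := hR _ hv
    have h3 : ∀ i, |(v i : ℝ)| ≤ R := fun i => (norm_le_pi_norm (re v) i).trans h2
    constructor
    · intro i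
      have h4 : -(⌈R⌉ : ℝ) ≤ v i := by
        have := (abs_le.1 (h3 i)).1
        have := Int.le_ceil R
        linarith
      exact_mod_cast h4
    · intro i
      have h4 : (v i : ℝ) ≤ ⌈R⌉ := by
        have := (abs_le.1 (h3 i)).2
        have := Int.le_ceil R
        linarith
      exact_mod_cast h4
  exact (Set.finite_Icc _ _).subset h1

theorem lat_mono {r : ℕ} {B B' : Set (Fin r → ℝ)} (h : B ⊆ B') : lat B ⊆ lat B' :=
  fun _ hv => h hv

/-- what is used of a symmetric convex set -/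
structure Sym {r : ℕ} (B : Set (Fin r → ℝ)) : Prop where
  conv : Convex ℝ B
  comp : IsCompact B
  symm : ∀ x ∈ B, -x ∈ B
  ne : B.Nonempty

theorem Sym.smul {r : ℕ} {B : Set (Fin r → ℝ)} (hB : Sym B) (t : ℝ) : Sym (t • B) where
  conv := hB.conv.smul t
  comp := hB.comp.smul t
  symm := by
    rintro _ ⟨x, hx, rfl⟩
    exact ⟨-x, hB.symm x hx, smul_neg t x⟩
  ne := hB.ne.smul_set

theorem Sym.zero {r : ℕ} {B : Set (Fin r → ℝ)} (hB : Sym B) : (0 : Fin r → ℝ) ∈ B := by
  obtain ⟨x, hx⟩ := hB.ne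
  have h := hB.conv hx (hB.symm x hx) (a := 1 / 2) (b := 1 / 2) (by norm_num) (by norm_num) (by norm_num)
  simpa using h

theorem Sym.mono {r : ℕ} {B : Set (Fin r → ℝ)} (hB : Sym B) {s t : ℝ} (hs : 0 ≤ s) (h : s ≤ t) :
    s • B ⊆ t • B := by
  rintro _ ⟨x, hx, rfl⟩
  rcases (hs.trans h).eq_or_lt with h0 | h0
  · have : s = 0 := by linarith
    subst this
    exact ⟨x, hx, by rw [← h0]⟩
  · refine ⟨(s / t) • x, ?_, ?_⟩
    · exact hB.conv.smul_mem_of_zero_mem hB.zero hx ⟨by positivity, by rw [div_le_one h0]; exact h⟩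
    · show t • (s / t) • x = s • x
      rw [smul_smul]
      congr 1
      field_simp

theorem Sym.finite {r : ℕ} {B : Set (Fin r → ℝ)} (hB : Sym B) (t : ℝ) : (lat (t • B)).Finite :=
  lat_finite (hB.smul t).comp.isBounded

/-- the number of the integer points of `t B` -/
noncomputable def num {r : ℕ} (B : Set (Fin r → ℝ)) (t : ℝ) : ℕ := (lat (t • B)).ncard

theorem Sym.add {r : ℕ} {B : Set (Fin r → ℝ)} (hB : Sym B) {s t : ℝ} (hs : 0 ≤ s) (ht : 0 ≤ t)
    {v w : Fin r → ℤ} (hv : v ∈ lat (s • B)) (hw : w ∈ lat (t • B)) : v + w ∈ lat ((s + t) • B) := by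
  show re (v + w) ∈ (s + t) • B
  rw [re_add, hB.conv.add_smul hs ht]
  exact Set.add_mem_add hv hw

theorem Sym.sub {r : ℕ} {B : Set (Fin r → ℝ)} (hB : Sym B) {s t : ℝ} (hs : 0 ≤ s) (ht : 0 ≤ t)
    {v w : Fin r → ℤ} (hv : v ∈ lat (s • B)) (hw : w ∈ lat (t • B)) : v - w ∈ lat ((s + t) • B) := by
  rw [sub_eq_add_neg]
  refine hB.add hs ht hv ?_
  show re (-w) ∈ t • B
  rw [re_neg]
  exact (hB.smul t).symm _ hw

/-- **Doubling of the dilate.** -/
theorem num_double {r : ℕ} {B : Set (Fin r → ℝ)} (hB : Sym B) {t : ℝ} (ht : 0 ≤ t) :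
    num B (2 * t) ≤ 4 ^ r * num B t := by
  classical
  have h1 := hB.finite (2 * t)
  have h2 := hB.finite t
  have e1 : num B (2 * t) = h1.toFinset.card := Set.ncard_eq_toFinset_card _ h1
  have e2 : num B t = h2.toFinset.card := Set.ncard_eq_toFinset_card _ h2
  rw [e1, e2]
  let f : (Fin r → ℤ) → (Fin r → ZMod 4) := fun v i => (v i : ZMod 4)
  have h3 : h1.toFinset.card ≤ h2.toFinset.card * (h1.toFinset.image f).card := by
    refine Finset.card_le_mul_card_image _ _ ?_
    intro a ha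
    obtain ⟨x0, hx0, hfx0⟩ := Finset.mem_image.1 ha
    have hx0' : x0 ∈ lat ((2 * t) • B) := (Set.Finite.mem_toFinset _).1 hx0
    refine Finset.card_le_card_of_injOn (fun v => fun i => (v i - x0 i) / 4) ?_ ?_
    · intro v hv
      have hv' := Finset.mem_filter.1 (Finset.mem_coe.1 hv)
      have hv1 : v ∈ lat ((2 * t) • B) := (Set.Finite.mem_toFinset _).1 hv'.1
      have hdvd : ∀ i, (4 : ℤ) ∣ v i - x0 i := by
        intro i
        have h4 : (v i : ZMod 4) = (x0 i : ZMod 4) := by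
          have : f v = f x0 := by rw [hv'.2, hfx0]
          exact congrFun this i
        have h5 := (ZMod.intCast_eq_intCast_iff_dvd_sub (x0 i) (v i) 4).1 h4.symm
        exact_mod_cast h5
      rw [Finset.mem_coe, Set.Finite.mem_toFinset]
      have h6 := hB.sub (by positivity) (by positivity) hv1 hx0'
      show re _ ∈ t • B
      have h7 : re (fun i => (v i - x0 i) / 4) = (1 / 4 : ℝ) • re (v - x0) := by
        funext i
        obtain ⟨k, hk⟩ := hdvd i
        have : (v i - x0 i) / 4 = k := by rw [hk]; exact Int.mul_ediv_cancel_left k (by norm_num)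
        show (((v i - x0 i) / 4 : ℤ) : ℝ) = (1 / 4 : ℝ) * ((v i - x0 i : ℤ) : ℝ)
        rw [this, hk]
        push_cast
        ring
      rw [h7]
      obtain ⟨b, hb, hb2⟩ := h6
      refine ⟨b, hb, ?_⟩
      show t • b = _
      rw [← hb2]
      show t • b = (1 / 4 : ℝ) • ((2 * t + 2 * t) • b)
      rw [smul_smul]
      congr 1
      ring
    · intro v hv w hw hvw
      have hv' := Finset.mem_filter.1 (Finset.mem_coe.1 hv)
      have hw' := Finset.mem_filter.1 (Finset.mem_coe.1 hw)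
      have hdvd : ∀ u : Fin r → ℤ, f u = a → ∀ i, (4 : ℤ) ∣ u i - x0 i := by
        intro u hu i
        have h4 : (u i : ZMod 4) = (x0 i : ZMod 4) := by
          have : f u = f x0 := by rw [hu, hfx0]
          exact congrFun this i
        have h5 := (ZMod.intCast_eq_intCast_iff_dvd_sub (x0 i) (u i) 4).1 h4.symm
        exact_mod_cast h5
      funext i
      have h8 := congrFun hvw i
      simp only at h8
      obtain ⟨k, hk⟩ := hdvd v hv'.2 i
      obtain ⟨l, hl⟩ := hdvd w hw'.2 i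
      rw [hk, hl, Int.mul_ediv_cancel_left _ (by norm_num), Int.mul_ediv_cancel_left _ (by norm_num)] at h8
      subst h8
      linarith
  have h4 : (h1.toFinset.image f).card ≤ 4 ^ r := by
    refine (Finset.card_le_univ _).trans ?_
    rw [Fintype.card_fun, Fintype.card_fin]
    exact le_of_eq (by rw [ZMod.card])
  calc h1.toFinset.card ≤ h2.toFinset.card * (h1.toFinset.image f).card := h3
    _ ≤ h2.toFinset.card * 4 ^ r := Nat.mul_le_mul_left _ h4
    _ = 4 ^ r * h2.toFinset.card := mul_comm _ _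

theorem num_pos {r : ℕ} {B : Set (Fin r → ℝ)} (hB : Sym B) (t : ℝ) : 0 < num B t := by
  rw [num, Set.ncard_pos (hB.finite t)]
  refine ⟨0, ?_⟩
  show re 0 ∈ t • B
  have : re (0 : Fin r → ℤ) = 0 := by funext i; simp [re]
  rw [this]
  exact ⟨0, hB.zero, smul_zero t⟩

theorem num_mono {r : ℕ} {B : Set (Fin r → ℝ)} (hB : Sym B) {s t : ℝ} (hs : 0 ≤ s) (h : s ≤ t) :
    num B s ≤ num B t :=
  Set.ncard_le_ncard (lat_mono (hB.mono hs h)) (hB.finite t)

theorem num_pow {r : ℕ} {B : Set (Fin r → ℝ)} (hB : Sym B) {t : ℝ} (ht : 0 ≤ t) (k : ℕ) :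
    num B (2 ^ k * t) ≤ (4 ^ k) ^ r * num B t := by
  induction k with
  | zero => simp
  | succ k ih =>
    have h1 := num_double hB (t := 2 ^ k * t) (by positivity)
    calc num B (2 ^ (k + 1) * t) = num B (2 * (2 ^ k * t)) := by congr 1; ring
      _ ≤ 4 ^ r * num B (2 ^ k * t) := h1
      _ ≤ 4 ^ r * ((4 ^ k) ^ r * num B t) := Nat.mul_le_mul_left _ ih
      _ = (4 ^ (k + 1)) ^ r * num B t := by rw [pow_succ 4 k, mul_pow]; ring

/-- small dilates contain only the origin -/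
theorem num_small {r : ℕ} {B : Set (Fin r → ℝ)} (hB : Sym B) : ∃ j : ℕ, num B ((1 / 2 : ℝ) ^ j) = 1 := by
  obtain ⟨R, hR⟩ := hB.comp.isBounded.exists_norm_le
  obtain ⟨j, hj⟩ : ∃ j : ℕ, (1 / 2 : ℝ) ^ j * (|R| + 1) < 1 := by
    obtain ⟨j, hj⟩ := exists_pow_lt_of_lt_one (show (0 : ℝ) < 1 / (|R| + 1) by positivity)
      (show (1 / 2 : ℝ) < 1 by norm_num)
    refine ⟨j, ?_⟩
    rw [lt_div_iff₀ (by positivity)] at hj
    exact hj
  refine ⟨j, ?_⟩
  rw [num, Set.ncard_eq_one]
  refine ⟨0, ?_⟩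
  ext v
  constructor
  · rintro ⟨b, hb, hbv⟩
    rw [Set.mem_singleton_iff]
    funext i
    have h1 : |(v i : ℝ)| < 1 := by
      have h2 : (v i : ℝ) = (1 / 2 : ℝ) ^ j * b i := by
        have := congrFun hbv i
        exact this.symm
      rw [h2, abs_mul, abs_of_pos (by positivity)]
      have h3 : |b i| ≤ |R| + 1 := by
        have h4 := (norm_le_pi_norm b i).trans (hR b hb)
        have h5 := le_abs_self R
        rw [Real.norm_eq_abs] at h4
        linarith
      calc (1 / 2 : ℝ) ^ j * |b i| ≤ (1 / 2 : ℝ) ^ j * (|R| + 1) :=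
            mul_le_mul_of_nonneg_left h3 (by positivity)
        _ < 1 := hj
    have h6 : |v i| < 1 := by exact_mod_cast h1
    have := Int.abs_lt_one_iff.1 h6
    simpa using this
  · rintro rfl
    have : re (0 : Fin r → ℤ) = 0 := by funext i; simp [re]
    show re 0 ∈ ((1 / 2 : ℝ) ^ j) • B
    rw [this]
    exact ⟨0, hB.zero, smul_zero _⟩

/-- The integer points of `2 B` are covered by few translates of those of `t B`. -/
theorem cover_two {r : ℕ} {B : Set (Fin r → ℝ)} (hB : Sym B) {t : ℝ} (ht : 0 < t) (ht1 : t ≤ 1) :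
    ∃ F : Finset (Fin r → ℤ), (F.card : ℝ) * num B (t / 2) ≤ 16 ^ r * num B 1 ∧
      ∀ v ∈ lat ((2 : ℝ) • B), ∃ f ∈ F, ∃ w ∈ lat (t • B), v = f + w := by
  classical
  have h1 := hB.finite 2
  have h2 := hB.finite (t / 2)
  have h4 := hB.finite 4
  have e2 : num B (t / 2) = h2.toFinset.card := Set.ncard_eq_toFinset_card _ h2
  have e4 : num B 4 = h4.toFinset.card := Set.ncard_eq_toFinset_card _ h4
  have hpos := num_pos hB (t / 2)
  have hne : h2.toFinset.Nonempty := Finset.card_pos.1 (by rw [← e2]; exact hpos)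
  have hsub : h1.toFinset + h2.toFinset ⊆ h4.toFinset := by
    intro x hx
    obtain ⟨a, ha, b, hb, rfl⟩ := Finset.mem_add.1 hx
    rw [Set.Finite.mem_toFinset] at ha hb ⊢
    have h5 := hB.add (by norm_num) (by positivity) ha hb
    exact lat_mono (hB.mono (by positivity) (by linarith)) h5
  have hle : ((h1.toFinset + h2.toFinset).card : ℝ) ≤ ((num B 4 : ℝ) / h2.toFinset.card) * h2.toFinset.card := by
    have h6 : (0 : ℝ) < h2.toFinset.card := by exact_mod_cast Finset.card_pos.2 hne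
    rw [div_mul_cancel₀ _ h6.ne', e4]
    exact_mod_cast Finset.card_le_card hsub
  obtain ⟨F, hF1, hF2, hF3⟩ := Finset.ruzsa_covering_add hne hle
  refine ⟨F, ?_, ?_⟩
  · have h6 : (0 : ℝ) < h2.toFinset.card := by exact_mod_cast Finset.card_pos.2 hne
    rw [e2]
    rw [le_div_iff₀ h6] at hF2
    refine hF2.trans ?_
    have h7 := num_pow hB (t := 1) (by norm_num) 2
    have e : num B (2 ^ 2 * 1) = num B 4 := by norm_num
    rw [e] at h7
    have h8 : ((num B 4 : ℕ) : ℝ) ≤ (((4 ^ 2) ^ r * num B 1 : ℕ) : ℝ) := by exact_mod_cast h7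
    push_cast at h8
    norm_num at h8
    exact h8
  · intro v hv
    have hv' : v ∈ h1.toFinset := by rw [Set.Finite.mem_toFinset]; exact hv
    obtain ⟨f, hf, d, hd, rfl⟩ := Finset.mem_add.1 (hF3 hv')
    obtain ⟨a, ha, b, hb, rfl⟩ := Finset.mem_sub.1 hd
    rw [Set.Finite.mem_toFinset] at ha hb
    refine ⟨f, hf, a - b, ?_, rfl⟩
    have h5 := hB.sub (by positivity) (by positivity) ha hb
    have e : t / 2 + t / 2 = t := by ring
    rw [e] at h5
    exact h5

/-- **Choice of the scale.** For every bound `m ≥ 1` there is a dilate with at most `m` integer points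
such that few translates of its integer points cover those of `2 B`. The dilate `s B` contains
the differences of the integer points of `(s / 2) B`. -/
theorem scale {r : ℕ} {B : Set (Fin r → ℝ)} (hB : Sym B) {m : ℝ} (hm : 1 ≤ m) :
    ∃ (s : ℝ) (F : Finset (Fin r → ℤ)), 0 < s ∧ (num B s : ℝ) ≤ m ∧
      (F.card : ℝ) ≤ 1024 ^ r * max 1 (num B 1 / m) ∧
      ∀ v ∈ lat ((2 : ℝ) • B), ∃ f ∈ F, ∃ w ∈ lat ((s / 2) • B), v = f + w := by
  classical
  obtain ⟨j0, hj0⟩ := num_small hB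
  have hex : ∃ j : ℕ, (num B ((1 / 2 : ℝ) ^ j) : ℝ) ≤ m := ⟨j0, by rw [hj0]; exact_mod_cast hm⟩
  set j := Nat.find hex with hj
  have hj1 : (num B ((1 / 2 : ℝ) ^ j) : ℝ) ≤ m := Nat.find_spec hex
  set s : ℝ := (1 / 2 : ℝ) ^ j with hs
  have hspos : 0 < s := by positivity
  have hs1 : s ≤ 1 := pow_le_one₀ (by norm_num) (by norm_num)
  obtain ⟨F, hF1, hF2⟩ := cover_two hB (t := s / 2) (by positivity) (by linarith)
  refine ⟨s, F, hspos, hj1, ?_, hF2⟩
  have hq := num_pos hB (s / 2 / 2)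
  have hq' : (0 : ℝ) < num B (s / 2 / 2) := by exact_mod_cast hq
  have hn1 : (0 : ℝ) < num B 1 := by exact_mod_cast num_pos hB 1
  have hm0 : 0 < m := by linarith
  rcases Nat.eq_zero_or_pos j with h0 | h0
  · -- scale one
    have hs' : s = 1 := by rw [hs, h0, pow_zero]
    have h1 := num_pow hB (t := s / 2 / 2) (by positivity) 2
    have e : (2 : ℝ) ^ 2 * (s / 2 / 2) = 1 := by rw [hs']; norm_num
    rw [e] at h1
    have h2 : (num B 1 : ℝ) ≤ (16 : ℝ) ^ r * num B (s / 2 / 2) := by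
      have : ((num B 1 : ℕ) : ℝ) ≤ (((4 ^ 2) ^ r * num B (s / 2 / 2) : ℕ) : ℝ) := by exact_mod_cast h1
      push_cast at this
      norm_num at this ⊢
      exact this
    have h3 : (F.card : ℝ) * num B (s / 2 / 2) ≤ (256 : ℝ) ^ r * num B (s / 2 / 2) := by
      calc (F.card : ℝ) * num B (s / 2 / 2) ≤ 16 ^ r * num B 1 := hF1
        _ ≤ 16 ^ r * (16 ^ r * num B (s / 2 / 2)) := mul_le_mul_of_nonneg_left h2 (by positivity)
        _ = (256 : ℝ) ^ r * num B (s / 2 / 2) := by
          rw [← mul_assoc, ← mul_pow]; norm_num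
    have h4 : (F.card : ℝ) ≤ (256 : ℝ) ^ r := le_of_mul_le_mul_right h3 hq'
    calc (F.card : ℝ) ≤ (256 : ℝ) ^ r := h4
      _ ≤ (1024 : ℝ) ^ r := pow_le_pow_left₀ (by norm_num) (by norm_num) r
      _ = 1024 ^ r * 1 := (mul_one _).symm
      _ ≤ 1024 ^ r * max 1 (num B 1 / m) := mul_le_mul_of_nonneg_left (le_max_left _ _) (by positivity)
  · have hlt : ¬ (num B ((1 / 2 : ℝ) ^ (j - 1)) : ℝ) ≤ m := Nat.find_min hex (by omega)
    push Not at hlt
    have h1 := num_pow hB (t := s / 2 / 2) (by positivity) 3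
    have e : (2 : ℝ) ^ 3 * (s / 2 / 2) = (1 / 2 : ℝ) ^ (j - 1) := by
      have : (1 / 2 : ℝ) ^ j = (1 / 2 : ℝ) ^ (j - 1) * (1 / 2) := by
        rw [← pow_succ]; congr 1; omega
      rw [hs, this]
      ring
    rw [e] at h1
    have h2 : m ≤ (64 : ℝ) ^ r * num B (s / 2 / 2) := by
      have : ((num B ((1 / 2 : ℝ) ^ (j - 1)) : ℕ) : ℝ) ≤ (((4 ^ 3) ^ r * num B (s / 2 / 2) : ℕ) : ℝ) := by
        exact_mod_cast h1
      push_cast at this
      norm_num at this ⊢
      norm_num at hlt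
      linarith
    have h3 : (F.card : ℝ) * m ≤ (1024 : ℝ) ^ r * num B 1 := by
      calc (F.card : ℝ) * m ≤ F.card * ((64 : ℝ) ^ r * num B (s / 2 / 2)) :=
            mul_le_mul_of_nonneg_left h2 (by positivity)
        _ = (64 : ℝ) ^ r * (F.card * num B (s / 2 / 2)) := by ring
        _ ≤ (64 : ℝ) ^ r * (16 ^ r * num B 1) := mul_le_mul_of_nonneg_left hF1 (by positivity)
        _ = (1024 : ℝ) ^ r * num B 1 := by rw [← mul_assoc, ← mul_pow]; norm_num
    calc (F.card : ℝ) ≤ (1024 : ℝ) ^ r * num B 1 / m := by rw [le_div_iff₀ hm0]; exact h3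
      _ = 1024 ^ r * (num B 1 / m) := by ring
      _ ≤ 1024 ^ r * max 1 (num B 1 / m) := mul_le_mul_of_nonneg_left (le_max_right _ _) (by positivity)

end Pool.Agent.Y806.DF
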