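import Pool.Agent.H24.Lib.R_seed8.Y806.DF.B
import Pool.Agent.H24.Lib.R_seed8.H112R2.Cover

/-!
# Dimension reduction for convex coset progressions
-/

set_option autoImplicit false

namespace Pool.Agent.Y806.DF

open Finset
open scoped Pointwise

/-- Structure of a set of integer points which is dense in its convex hull. -/
theorem struct {d : ℕ} (X : Finset (Fin d → ℤ)) (hX : X.Nonempty) {K : ℝ} (hK1 : 1 ≤ K)
    (hK : ((X + X).card : ℝ) ≤ K * X.card) (hh : ((hull X).ncard : ℝ) ≤ K * X.card) :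
    ∃ (r : ℕ) (φ : (Fin r → ℤ) →+ (Fin d → ℤ)) (B : Set (Fin r → ℝ)) (F : Finset (Fin d → ℤ)),
      (r : ℝ) ≤ 480 * Real.log K + 1 ∧ Sym B ∧ (num B 1 : ℝ) ≤ K * X.card ∧
      (F.card : ℝ) ≤ K ^ 372 * 4 ^ r ∧
      ∀ x ∈ X, ∃ f ∈ F, ∃ w ∈ lat ((2 : ℝ) • B), x = f + φ w := by
  classical
  obtain ⟨r, φ, t, Y, hr, hφ, hY, hXY, hsub⟩ := reduce X hX hK1 hK
  have hYpos : (0 : ℝ) < Y.card := by exact_mod_cast hY.card_pos
  have hK0 : 0 < K := by linarith
  -- doubling of `Y`
  have hYY : ((Y + Y).card : ℝ) ≤ K ^ 186 * Y.card := by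
    have h1 : (Y + Y).card ≤ (X + X).card := by
      refine Finset.card_le_card_of_injOn (fun v => (t + t) + φ v) ?_ ?_
      · intro v hv
        obtain ⟨a, ha, b, hb, rfl⟩ := Finset.mem_add.1 (Finset.mem_coe.1 hv)
        rw [Finset.mem_coe]
        have e : (t + t) + φ (a + b) = (t + φ a) + (t + φ b) := by rw [map_add]; abel
        show (t + t) + φ (a + b) ∈ X + X
        rw [e]
        exact Finset.add_mem_add (hsub a ha) (hsub b hb)
      · intro v _ w _ h
        exact hφ (add_left_cancel h)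
    calc ((Y + Y).card : ℝ) ≤ (X + X).card := by exact_mod_cast h1
      _ ≤ K * X.card := hK
      _ ≤ K * (K ^ 185 * Y.card) := mul_le_mul_of_nonneg_left hXY hK0.le
      _ = K ^ 186 * Y.card := by ring
  obtain ⟨c, hc⟩ := sym_part Y hY hYY
  set Yc := Y.filter (fun y => c + c - y ∈ Y) with hYc
  have hYcpos : 0 < Yc.card := by
    by_contra h
    have h0 : Yc.card = 0 := by omega
    rw [h0, Nat.cast_zero, mul_zero] at hc
    linarith
  have hYcne : Yc.Nonempty := Finset.card_pos.1 hYcpos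
  -- the symmetric convex set
  set D : Set (Fin r → ℝ) := re '' ((Yc.image (fun y => y - c) : Finset (Fin r → ℤ)) : Set (Fin r → ℤ)) with hD
  have hDfin : D.Finite := (Finset.finite_toSet _).image re
  have hDsym : -D = D := by
    ext x
    rw [Set.mem_neg]
    constructor
    · rintro ⟨v, hv, hvx⟩
      obtain ⟨y, hy, rfl⟩ := Finset.mem_image.1 (Finset.mem_coe.1 hv)
      have hy' := Finset.mem_filter.1 hy
      refine ⟨(c + c - y) - c, ?_, ?_⟩
      · rw [Finset.mem_coe, Finset.mem_image]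
        refine ⟨c + c - y, Finset.mem_filter.2 ⟨hy'.2, ?_⟩, rfl⟩
        have : c + c - (c + c - y) = y := by abel
        rw [this]
        exact hy'.1
      · have e : (c + c - y) - c = -(y - c) := by abel
        rw [e, re_neg, hvx, neg_neg]
    · rintro ⟨v, hv, rfl⟩
      obtain ⟨y, hy, rfl⟩ := Finset.mem_image.1 (Finset.mem_coe.1 hv)
      have hy' := Finset.mem_filter.1 hy
      refine ⟨(c + c - y) - c, ?_, ?_⟩
      · rw [Finset.mem_coe, Finset.mem_image]
        refine ⟨c + c - y, Finset.mem_filter.2 ⟨hy'.2, ?_⟩, rfl⟩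
        have : c + c - (c + c - y) = y := by abel
        rw [this]
        exact hy'.1
      · have e : (c + c - y) - c = -(y - c) := by abel
        rw [e, re_neg]
  set B := convexHull ℝ D with hB
  have hsym : Sym B := by
    refine ⟨convex_convexHull ℝ D, hDfin.isCompact_convexHull ℝ, ?_, ?_⟩
    · intro x hx
      have h1 : -B = B := by rw [hB, ← convexHull_neg, hDsym]
      rw [← h1, Set.mem_neg, neg_neg]
      exact hx
    · obtain ⟨y, hy⟩ := hYcne
      exact ⟨re (y - c), subset_convexHull ℝ D ⟨y - c, Finset.mem_coe.2 (Finset.mem_image.2 ⟨y, hy, rfl⟩), rfl⟩⟩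
  have hmem : ∀ y ∈ Yc, y - c ∈ lat ((1 : ℝ) • B) := by
    intro y hy
    show re (y - c) ∈ (1 : ℝ) • B
    rw [one_smul]
    exact subset_convexHull ℝ D ⟨y - c, Finset.mem_coe.2 (Finset.mem_image.2 ⟨y, hy, rfl⟩), rfl⟩
  -- the number of integer points
  have hnum : num B 1 ≤ (hull Y).ncard := by
    refine Set.ncard_le_ncard_of_injOn (fun v => c + v) ?_ ?_ (hull_finite Y)
    · intro v hv
      have hv' : re v ∈ B := by
        have : re v ∈ (1 : ℝ) • B := hv
        rwa [one_smul] at this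
      show re (c + v) ∈ convexHull ℝ (re '' (Y : Set (Fin r → ℤ)))
      rw [re_add]
      have h2 : re c + re v ∈ re c +ᵥ convexHull ℝ D := ⟨_, hv', rfl⟩
      rw [← convexHull_vadd] at h2
      refine convexHull_mono ?_ h2
      rintro _ ⟨_, ⟨u, hu, rfl⟩, rfl⟩
      obtain ⟨y, hy, rfl⟩ := Finset.mem_image.1 (Finset.mem_coe.1 hu)
      refine ⟨y, (Finset.mem_filter.1 hy).1, ?_⟩
      show re y = re c + re (y - c)
      rw [re_sub]
      abel
    · intro v _ w _ h
      exact add_left_cancel h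
  have hnum' : (num B 1 : ℝ) ≤ K * X.card := by
    have h1 : num B 1 ≤ (hull X).ncard := hnum.trans (hull_map φ hφ t X Y hsub)
    exact (by exact_mod_cast h1 : (num B 1 : ℝ) ≤ (hull X).ncard).trans hh
  -- the covering
  set Z := Yc.image (fun y => t + φ y) with hZ
  have hZcard : Z.card = Yc.card :=
    Finset.card_image_of_injOn (fun v _ w _ h => hφ (add_left_cancel h))
  have hZne : Z.Nonempty := hYcne.image _
  have hZX : Z ⊆ X := by
    intro z hz
    obtain ⟨y, hy, rfl⟩ := Finset.mem_image.1 hz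
    exact hsub y (Finset.mem_filter.1 hy).1
  have hXZ : ((X + Z).card : ℝ) ≤ (K ^ 372 * 4 ^ r) * Z.card := by
    have h1 : ((X + Z).card : ℝ) ≤ (X + X).card := by
      exact_mod_cast Finset.card_le_card (Finset.add_subset_add_left hZX)
    calc ((X + Z).card : ℝ) ≤ (X + X).card := h1
      _ ≤ K * X.card := hK
      _ ≤ K * (K ^ 185 * Y.card) := mul_le_mul_of_nonneg_left hXY hK0.le
      _ ≤ K * (K ^ 185 * (4 ^ r * K ^ 186 * Yc.card)) :=
        mul_le_mul_of_nonneg_left (mul_le_mul_of_nonneg_left hc (by positivity)) hK0.le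
      _ = (K ^ 372 * 4 ^ r) * Z.card := by rw [hZcard]; ring
  obtain ⟨F, -, hF, hcov⟩ := Finset.ruzsa_covering_add hZne hXZ
  refine ⟨r, φ, B, F, hr, hsym, hnum', hF, ?_⟩
  intro x hx
  obtain ⟨f, hf, u, hu, rfl⟩ := Finset.mem_add.1 (hcov hx)
  obtain ⟨z, hz, z', hz', rfl⟩ := Finset.mem_sub.1 hu
  obtain ⟨y, hy, rfl⟩ := Finset.mem_image.1 hz
  obtain ⟨y', hy', rfl⟩ := Finset.mem_image.1 hz'
  refine ⟨f, hf, y - y', ?_, ?_⟩
  · have h1 := hsym.sub (by norm_num) (by norm_num) (hmem y hy) (hmem y' hy')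
    have e : y - c - (y' - c) = y - y' := by abel
    rw [e] at h1
    norm_num at h1
    exact h1
  · rw [map_sub]
    abel

/-- a centrally symmetric convex body -/
def Body {r : ℕ} (B : Set (Fin r → ℝ)) : Prop :=
  Convex ℝ B ∧ IsCompact B ∧ (interior B).Nonempty ∧ ∀ x ∈ B, -x ∈ B

/-- A symmetric convex set can be fattened without new integer points. -/
theorem fatten {r : ℕ} {B : Set (Fin r → ℝ)} (hB : Sym B) : ∃ B', Body B' ∧ lat B' = lat B := by
  have hfin : (lat (B + Metric.closedBall (0 : Fin r → ℝ) 1)).Finite :=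
    lat_finite (hB.comp.add (isCompact_closedBall 0 1)).isBounded
  have hcl : IsClosed B := hB.comp.isClosed
  have hev : ∀ᶠ ε in nhdsWithin (0 : ℝ) (Set.Ioi 0), ∀ v ∈ hfin.toFinset, re v ∉ B →
      ε < Metric.infDist (re v) B := by
    rw [Filter.eventually_all_finset]
    intro v _
    by_cases h : re v ∈ B
    · exact Filter.Eventually.of_forall (fun ε hh => absurd h hh)
    · have h1 : 0 < Metric.infDist (re v) B := (hcl.notMem_iff_infDist_pos hB.ne).1 h
      filter_upwards [eventually_nhdsWithin_of_eventually_nhds (gt_mem_nhds h1)] with ε hε _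
      exact hε
  have hev1 : ∀ᶠ ε in nhdsWithin (0 : ℝ) (Set.Ioi 0), ε < 1 :=
    eventually_nhdsWithin_of_eventually_nhds (gt_mem_nhds one_pos)
  have hev2 : ∀ᶠ ε in nhdsWithin (0 : ℝ) (Set.Ioi 0), (0 : ℝ) < ε := eventually_mem_nhdsWithin
  obtain ⟨ε, h1, h2, h3⟩ := (hev.and (hev1.and hev2)).exists
  refine ⟨B + Metric.closedBall 0 ε, ⟨?_, ?_, ?_, ?_⟩, ?_⟩
  · exact hB.conv.add (convex_closedBall 0 ε)
  · exact hB.comp.add (isCompact_closedBall 0 ε)
  · refine ⟨0, mem_interior.2 ⟨Metric.ball 0 ε, ?_, Metric.isOpen_ball, Metric.mem_ball_self h3⟩⟩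
    intro x hx
    exact ⟨0, hB.zero, x, Metric.ball_subset_closedBall hx, zero_add x⟩
  · rintro _ ⟨b, hb, e, he, rfl⟩
    refine ⟨-b, hB.symm b hb, -e, ?_, ?_⟩
    · rw [mem_closedBall_zero_iff, norm_neg]
      exact mem_closedBall_zero_iff.1 he
    · show -b + -e = -(b + e)
      rw [neg_add]
  · ext v
    constructor
    · rintro ⟨b, hb, e, he, hbe⟩
      by_contra hcon
      have he' := mem_closedBall_zero_iff.1 he
      have hv : v ∈ hfin.toFinset := by
        rw [Set.Finite.mem_toFinset]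
        exact ⟨b, hb, e, mem_closedBall_zero_iff.2 (he'.trans h2.le), hbe⟩
      have h4 := h1 v hv hcon
      have h5 : Metric.infDist (re v) B ≤ dist (re v) b := Metric.infDist_le_dist_of_mem hb
      have h6 : dist (re v) b = ‖e‖ := by
        rw [← hbe, dist_eq_norm]
        show ‖b + e - b‖ = ‖e‖
        rw [add_sub_cancel_left]
      linarith
    · intro hv
      exact ⟨re v, hv, 0, Metric.mem_closedBall_self h3.le, add_zero _⟩

/-- `A` is covered by the translates by `T` of the convex coset progression `ψ(ℤ^r ∩ B) + H`. -/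
def Cov {Γ : Type*} [AddCommGroup Γ] {r : ℕ} (B : Set (Fin r → ℝ)) (ψ : (Fin r → ℤ) →+ Γ)
    (H : AddSubgroup Γ) (T A : Finset Γ) : Prop :=
  ∀ a ∈ A, ∃ t ∈ T, ∃ x ∈ lat B, ∃ h ∈ H, a = t + ψ x + h

theorem pow_bound {K : ℝ} (hK : 1 ≤ K) {r : ℕ} (hr : (r : ℝ) ≤ 480 * Real.log K + 1) :
    (4096 : ℝ) ^ r ≤ 4096 * K ^ 3993 := by
  have hK0 : 0 < K := by linarith
  have hl : Real.log 4096 ≤ 8.3178 := by
    have h1 : Real.log 4096 = 12 * Real.log 2 := by
      rw [show (4096 : ℝ) = 2 ^ 12 by norm_num, Real.log_pow]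
      norm_num
    rw [h1]
    have := Real.log_two_lt_d9
    linarith
  have hl0 : 0 ≤ Real.log 4096 := Real.log_nonneg (by norm_num)
  have hlK : 0 ≤ Real.log K := Real.log_nonneg hK
  have h2 : Real.log ((4096 : ℝ) ^ r) ≤ Real.log (4096 * K ^ 3993) := by
    rw [Real.log_pow, Real.log_mul (by norm_num) (by positivity), Real.log_pow]
    calc (r : ℝ) * Real.log 4096 ≤ (480 * Real.log K + 1) * Real.log 4096 :=
          mul_le_mul_of_nonneg_right hr hl0
      _ = Real.log 4096 + 480 * Real.log 4096 * Real.log K := by ring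
      _ ≤ Real.log 4096 + 3993 * Real.log K := by
        have : 480 * Real.log 4096 ≤ 3993 := by linarith
        have := mul_le_mul_of_nonneg_right this hlK
        linarith
      _ = Real.log 4096 + ((3993 : ℕ) : ℝ) * Real.log K := by norm_num
  exact (Real.log_le_log_iff (by positivity) (by positivity)).1 h2

/-- Pigeonhole: one of the translates contains many elements. -/
theorem pigeon {ι Γ : Type*} [DecidableEq Γ] (I : Finset ι) (A A1 : Finset Γ) (hA1 : A1.Nonempty)
    (P : ι → Γ → Prop) [∀ i, DecidablePred (P i)] (h1 : A1 ⊆ A) (h : ∀ a ∈ A1, ∃ i ∈ I, P i a) :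
    ∃ i ∈ I, A1.card ≤ I.card * (A.filter (P i)).card := by
  have hI : I.Nonempty := by
    obtain ⟨a, ha⟩ := hA1
    obtain ⟨i, hi, -⟩ := h a ha
    exact ⟨i, hi⟩
  by_contra hcon
  push Not at hcon
  have h2 : A1 ⊆ I.biUnion (fun i => A.filter (P i)) := by
    intro a ha
    obtain ⟨i, hi, hP⟩ := h a ha
    exact Finset.mem_biUnion.2 ⟨i, hi, Finset.mem_filter.2 ⟨h1 ha, hP⟩⟩
  have h3 := (Finset.card_le_card h2).trans Finset.card_biUnion_le
  have h4 : I.card * ∑ i ∈ I, (A.filter (P i)).card < I.card * A1.card := by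
    rw [Finset.mul_sum]
    calc ∑ i ∈ I, I.card * (A.filter (P i)).card < ∑ _i ∈ I, A1.card :=
          Finset.sum_lt_sum_of_nonempty hI (fun i hi => hcon i hi)
      _ = I.card * A1.card := by rw [Finset.sum_const, smul_eq_mul]
  have h5 := Nat.mul_le_mul_left I.card h3
  omega

/-- The hypotheses: a coset progression of arbitrary dimension. -/
structure Data {Γ : Type*} [AddCommGroup Γ] [DecidableEq Γ] (K : ℝ) (A : Finset Γ) {d : ℕ}
    (X : Finset (Fin d → ℤ)) (ψ : (Fin d → ℤ) →+ Γ) (H : AddSubgroup Γ) (g : Γ) : Prop where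
  ne : X.Nonempty
  fin : Finite H
  doubling : ((X + X).card : ℝ) ≤ K * X.card
  dense : ((hull X).ncard : ℝ) ≤ K * X.card
  size : (X.card : ℝ) * Nat.card H ≤ K * A.card
  meet : (A.card : ℝ) ≤ K * ({a : Γ | a ∈ A ∧ ∃ x ∈ X, ∃ h ∈ H, a = g + ψ x + h}.ncard : ℝ)

theorem main {Γ : Type*} [AddCommGroup Γ] [DecidableEq Γ] {K : ℝ} {A : Finset Γ}
    (hA : A.Nonempty) (hK : ((A + A).card : ℝ) ≤ K * A.card) {d : ℕ} {X : Finset (Fin d → ℤ)}
    {ψ : (Fin d → ℤ) →+ Γ} {H : AddSubgroup Γ} {g : Γ} (hD : Data K A X ψ H g) :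
    ∃ (r : ℕ) (B : Set (Fin r → ℝ)) (θ : (Fin r → ℤ) →+ Γ) (H' : AddSubgroup Γ) (T : Finset Γ),
      (r : ℝ) ≤ 500 * Real.log (2 * K) ∧ Body B ∧ Finite H' ∧
      (lat B).ncard * Nat.card H' ≤ A.card ∧ (T.card : ℝ) ≤ 5000 * K ^ 5000 ∧
      Cov B θ H' T A := by
  classical
  have hApos : 0 < A.card := hA.card_pos
  have hAr : (0 : ℝ) < A.card := by exact_mod_cast hApos
  have hK1 : 1 ≤ K := by
    have h1 : (A.card : ℝ) ≤ (A + A).card := by
      exact_mod_cast Finset.card_le_card_add_right hA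
    nlinarith
  have hK0 : 0 < K := by linarith
  have hHfin := hD.fin
  have hHpos : 0 < Nat.card H := Nat.card_pos
  have hHr : (0 : ℝ) < Nat.card H := by exact_mod_cast hHpos
  have hXpos : 0 < X.card := hD.ne.card_pos
  have hXr : (1 : ℝ) ≤ X.card := by exact_mod_cast hXpos
  have hlog2 : 0.69 < Real.log (2 * K) := by
    have h1 := Real.log_two_gt_d9
    have h2 := Real.log_le_log (by norm_num : (0 : ℝ) < 2) (by linarith : (2 : ℝ) ≤ 2 * K)
    linarith
  have hlogK : Real.log K ≤ Real.log (2 * K) := Real.log_le_log hK0 (by linarith)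
  set A1 := A.filter (fun a => ∃ x ∈ X, ∃ h ∈ H, a = g + ψ x + h) with hA1
  have hmeet : (A.card : ℝ) ≤ K * A1.card := by
    have h1 := hD.meet
    have h2 : {a : Γ | a ∈ A ∧ ∃ x ∈ X, ∃ h ∈ H, a = g + ψ x + h} = (A1 : Set Γ) := by
      ext a
      rw [hA1, Finset.coe_filter]
    rw [h2, Set.ncard_coe_finset] at h1
    exact h1
  have hA1pos : 0 < A1.card := by
    by_contra h
    have h0 : A1.card = 0 := by omega
    rw [h0, Nat.cast_zero, mul_zero] at hmeet
    linarith
  have hA1ne : A1.Nonempty := Finset.card_pos.1 hA1pos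
  -- the last step, common to both cases
  have last : ∀ (A2 : Finset Γ) (M : ℝ), A2 ⊆ A → (A1.card : ℝ) ≤ M * A2.card →
      ∃ T : Finset Γ, (T.card : ℝ) ≤ K ^ 2 * M ∧ A ⊆ T + (A2 - A2) := by
    intro A2 M h2 h3
    have hne : A2.Nonempty := by
      rw [← Finset.card_pos]
      by_contra h
      have h0 : A2.card = 0 := by omega
      rw [h0, Nat.cast_zero, mul_zero] at h3
      have : (0 : ℝ) < A1.card := by exact_mod_cast hA1pos
      linarith
    have h4 : ((A + A2).card : ℝ) ≤ (K ^ 2 * M) * A2.card := by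
      calc ((A + A2).card : ℝ) ≤ (A + A).card := by
            exact_mod_cast Finset.card_le_card (Finset.add_subset_add_left h2)
        _ ≤ K * A.card := hK
        _ ≤ K * (K * A1.card) := mul_le_mul_of_nonneg_left hmeet hK0.le
        _ ≤ K * (K * (M * A2.card)) :=
          mul_le_mul_of_nonneg_left (mul_le_mul_of_nonneg_left h3 hK0.le) hK0.le
        _ = (K ^ 2 * M) * A2.card := by ring
    obtain ⟨T, -, hT, hcov⟩ := Finset.ruzsa_covering_add hne h4
    exact ⟨T, hT, hcov⟩
  rcases Nat.lt_or_ge A.card (Nat.card H) with hbig | hsmall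
  · -- a large finite subgroup
    obtain ⟨l, g', H₁, T₁, hfin1, hle, hvol, hT₁, hcov₁⟩ := H112.big_subgroup H hHfin hApos hbig
    obtain ⟨x, hx, hx2⟩ := pigeon X A A1 hA1ne (fun x a => ∃ h ∈ H, a = g + ψ x + h)
      (Finset.filter_subset _ _) (fun a ha => (Finset.mem_filter.1 ha).2)
    set A2 := A.filter (fun a => ∃ h ∈ H, a = g + ψ x + h) with hA2
    obtain ⟨T, hT, hcov⟩ := last A2 X.card (Finset.filter_subset _ _) (by exact_mod_cast hx2)
    have hXK : (X.card : ℝ) ≤ K := by
      have h1 := hD.size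
      have h2 : (A.card : ℝ) ≤ Nat.card H := by exact_mod_cast hbig.le
      have h3 : (X.card : ℝ) * A.card ≤ K * A.card :=
        (mul_le_mul_of_nonneg_left h2 (by positivity)).trans h1
      exact le_of_mul_le_mul_right h3 hAr
    have hT₁' : (T₁.card : ℝ) ≤ 6 * K := by
      have h1 := hD.size
      have h2 : (Nat.card H : ℝ) ≤ K * A.card := by
        calc (Nat.card H : ℝ) = 1 * Nat.card H := (one_mul _).symm
          _ ≤ X.card * Nat.card H := mul_le_mul_of_nonneg_right hXr hHr.le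
          _ ≤ K * A.card := h1
      have h3 : (T₁.card : ℝ) * A.card ≤ (6 * K) * A.card := by linarith
      exact le_of_mul_le_mul_right h3 hAr
    let θ : (Fin 1 → ℤ) →+ Γ :=
      { toFun := fun c => c 0 • g'
        map_zero' := by simp
        map_add' := by intro a b; simp [add_smul] }
    refine ⟨1, Metric.closedBall 0 ((l : ℝ) + 1 / 2), θ, H₁, T + T₁, ?_, ⟨?_, ?_, ?_, ?_⟩, hfin1, ?_, ?_, ?_⟩
    · push_cast
      linarith
    · exact convex_closedBall _ _
    · exact isCompact_closedBall _ _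
    · refine ⟨0, mem_interior.2 ⟨Metric.ball 0 ((l : ℝ) + 1 / 2), Metric.ball_subset_closedBall,
        Metric.isOpen_ball, Metric.mem_ball_self (by positivity)⟩⟩
    · intro x hx
      rw [mem_closedBall_zero_iff] at hx ⊢
      rw [norm_neg]
      exact hx
    · have h1 : (lat (Metric.closedBall (0 : Fin 1 → ℝ) ((l : ℝ) + 1 / 2))).ncard ≤ 2 * l + 1 := by
        have h2 : (lat (Metric.closedBall (0 : Fin 1 → ℝ) ((l : ℝ) + 1 / 2))).ncard ≤
            (Set.Icc (-(l : ℤ)) (l : ℤ)).ncard := by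
          refine Set.ncard_le_ncard_of_injOn (fun c => c 0) ?_ ?_ (Set.finite_Icc _ _)
          · intro c hc
            have h3 := mem_closedBall_zero_iff.1 hc
            have h4 := (norm_le_pi_norm (re c) 0).trans h3
            have h5 : |((c 0 : ℤ) : ℝ)| ≤ (l : ℝ) + 1 / 2 := h4
            have h6 : |c 0| ≤ (l : ℤ) := by
              by_contra hcon
              push Not at hcon
              have h7 : ((l : ℤ) : ℝ) + 1 ≤ (|c 0| : ℤ) := by exact_mod_cast hcon
              push_cast at h7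
              linarith
            exact ⟨(abs_le.1 h6).1, (abs_le.1 h6).2⟩
          · intro a _ b _ hab
            funext i
            fin_cases i
            exact hab
        have h8 : (Set.Icc (-(l : ℤ)) (l : ℤ)).ncard = 2 * l + 1 := by
          rw [Set.ncard_eq_toFinset_card', Set.toFinset_Icc, Int.card_Icc]
          omega
        omega
      exact (Nat.mul_le_mul_right _ h1).trans hvol
    · have h1 : ((T + T₁).card : ℝ) ≤ (K ^ 2 * K) * (6 * K) := by
        have h2 : ((T + T₁).card : ℝ) ≤ T.card * T₁.card := by exact_mod_cast Finset.card_add_le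
        refine h2.trans (mul_le_mul (hT.trans (mul_le_mul_of_nonneg_left hXK (by positivity))) hT₁'
          (by positivity) (by positivity))
      calc ((T + T₁).card : ℝ) ≤ (K ^ 2 * K) * (6 * K) := h1
        _ = 6 * K ^ 4 := by ring
        _ ≤ 5000 * K ^ 5000 := mul_le_mul (by norm_num) (pow_le_pow_right₀ hK1 (by norm_num))
          (by positivity) (by norm_num)
    · intro a ha
      obtain ⟨t, ht, u, hu, rfl⟩ := Finset.mem_add.1 (hcov ha)
      obtain ⟨p, hp, q, hq, rfl⟩ := Finset.mem_sub.1 hu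
      obtain ⟨h, hh, hp2⟩ := (Finset.mem_filter.1 hp).2
      obtain ⟨h', hh', hq2⟩ := (Finset.mem_filter.1 hq).2
      obtain ⟨t', ht', c, hc, k, hk, hk2⟩ := hcov₁ (h - h') (H.sub_mem hh hh')
      refine ⟨t + t', Finset.add_mem_add ht ht', fun _ => c, ?_, k, hk, ?_⟩
      · show re (fun _ => c) ∈ Metric.closedBall (0 : Fin 1 → ℝ) ((l : ℝ) + 1 / 2)
        rw [mem_closedBall_zero_iff, pi_norm_le_iff_of_nonneg (by positivity)]
        intro i
        show |(c : ℝ)| ≤ _
        have : |(c : ℝ)| ≤ l := by exact_mod_cast hc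
        linarith
      · show t + (p - q) = t + t' + c • g' + k
        rw [hp2, hq2]
        have e : g + ψ x + h - (g + ψ x + h') = h - h' := by abel
        rw [e, hk2]
        abel
  · -- the main case
    obtain ⟨r, φ, B, F₀, hr, hB, hnum, hF₀, hcov₀⟩ := struct X hD.ne hK1 hD.doubling hD.dense
    have hm : (1 : ℝ) ≤ (A.card : ℝ) / Nat.card H := by
      rw [le_div_iff₀ hHr, one_mul]
      exact_mod_cast hsmall
    obtain ⟨s, F, hs, hsm, hF, hcovF⟩ := scale hB hm
    have hmax : max 1 ((num B 1 : ℝ) / ((A.card : ℝ) / Nat.card H)) ≤ K ^ 2 := by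
      apply max_le (one_le_pow₀ hK1)
      rw [div_div_eq_mul_div, div_le_iff₀ hAr]
      calc (num B 1 : ℝ) * Nat.card H ≤ (K * X.card) * Nat.card H := mul_le_mul_of_nonneg_right hnum hHr.le
        _ = K * (X.card * Nat.card H) := by ring
        _ ≤ K * (K * A.card) := mul_le_mul_of_nonneg_left hD.size hK0.le
        _ = K ^ 2 * A.card := by ring
    obtain ⟨p, hp, hp2⟩ := pigeon (F₀ ×ˢ F) A A1 hA1ne
      (fun p a => ∃ w ∈ lat ((s / 2) • B), ∃ h ∈ H, a = g + ψ p.1 + ψ (φ p.2) + ψ (φ w) + h)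
      (Finset.filter_subset _ _) (by
        intro a ha
        obtain ⟨x, hx, h, hh, rfl⟩ := (Finset.mem_filter.1 ha).2
        obtain ⟨f₀, hf₀, v, hv, rfl⟩ := hcov₀ x hx
        obtain ⟨f, hf, w, hw, rfl⟩ := hcovF v hv
        refine ⟨(f₀, f), Finset.mk_mem_product hf₀ hf, w, hw, h, hh, ?_⟩
        simp only [map_add]
        abel)
    set A2 := A.filter (fun a => ∃ w ∈ lat ((s / 2) • B), ∃ h ∈ H,
      a = g + ψ p.1 + ψ (φ p.2) + ψ (φ w) + h) with hA2
    obtain ⟨T, hT, hcov⟩ := last A2 ((F₀ ×ˢ F).card) (Finset.filter_subset _ _) (by exact_mod_cast hp2)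
    obtain ⟨B', hB', hlat⟩ := fatten (hB.smul s)
    refine ⟨r, B', ψ.comp φ, H, T, ?_, hB', hHfin, ?_, ?_, ?_⟩
    · have h0 : 0 ≤ Real.log K := Real.log_nonneg hK1
      linarith
    · rw [hlat]
      have h1 : (num B s : ℝ) * Nat.card H ≤ A.card := by
        rw [le_div_iff₀ hHr] at hsm
        exact hsm
      exact_mod_cast h1
    · have hF' : (F.card : ℝ) ≤ 1024 ^ r * K ^ 2 :=
        hF.trans (mul_le_mul_of_nonneg_left hmax (pow_nonneg (by norm_num) r))
      have h1 : ((F₀ ×ˢ F).card : ℝ) ≤ (K ^ 372 * 4 ^ r) * (1024 ^ r * K ^ 2) := by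
        rw [Finset.card_product, Nat.cast_mul]
        exact mul_le_mul hF₀ hF' (Nat.cast_nonneg _)
          (mul_nonneg (pow_nonneg hK0.le _) (pow_nonneg (by norm_num) r))
      calc (T.card : ℝ) ≤ K ^ 2 * ((F₀ ×ˢ F).card : ℝ) := hT
        _ ≤ K ^ 2 * ((K ^ 372 * 4 ^ r) * (1024 ^ r * K ^ 2)) := mul_le_mul_of_nonneg_left h1 (by positivity)
        _ = K ^ 376 * (4096 : ℝ) ^ r := by
          have e : (4096 : ℝ) ^ r = 4 ^ r * 1024 ^ r := by rw [← mul_pow]; norm_num
          rw [e]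
          generalize (4 : ℝ) ^ r = u
          generalize (1024 : ℝ) ^ r = v
          ring
        _ ≤ K ^ 376 * (4096 * K ^ 3993) := mul_le_mul_of_nonneg_left (pow_bound hK1 hr) (by positivity)
        _ = 4096 * K ^ 4369 := by ring
        _ ≤ 5000 * K ^ 5000 := mul_le_mul (by norm_num) (pow_le_pow_right₀ hK1 (by norm_num))
          (by positivity) (by norm_num)
    · intro a ha
      obtain ⟨t, ht, u, hu, rfl⟩ := Finset.mem_add.1 (hcov ha)
      obtain ⟨y, hy, z, hz, rfl⟩ := Finset.mem_sub.1 hu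
      obtain ⟨w, hw, h, hh, hy2⟩ := (Finset.mem_filter.1 hy).2
      obtain ⟨w', hw', h', hh', hz2⟩ := (Finset.mem_filter.1 hz).2
      refine ⟨t, ht, w - w', ?_, h - h', H.sub_mem hh hh', ?_⟩
      · rw [hlat]
        have h1 := hB.sub (by positivity) (by positivity) hw hw'
        have e : s / 2 + s / 2 = s := by ring
        rw [e] at h1
        exact h1
      · show t + (y - z) = t + ψ (φ (w - w')) + (h - h')
        rw [hy2, hz2, map_sub, map_sub]
        abel

end Pool.Agent.Y806.DF
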